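import Mathlib

set_option autoImplicit false

namespace Pool.Agent.Results.MP_611bc7_al.Disproof

section Definitions

/-- An algebra of the variety `Θ`: a commutative associative, not necessarily unital, `k`-algebra. -/
structure ThetaAlgebra (k : Type) [Field k] where
  /-- the underlying set -/
  carrier : Type
  [ring : NonUnitalCommRing carrier]
  [module : Module k carrier]
  smul_mul : ∀ (c : k) (a b : carrier), (c • a) * b = c • (a * b)

attribute [instance] ThetaAlgebra.ring ThetaAlgebra.module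

variable {k : Type} [Field k]

/-- The homomorphisms between two algebras of `Θ`. -/
structure Hom (A B : ThetaAlgebra k) where
  /-- the underlying map -/
  app : A.carrier → B.carrier
  app_add : ∀ a b, app (a + b) = app a + app b
  app_mul : ∀ a b, app (a * b) = app a * app b
  app_smul : ∀ (c : k) a, app (c • a) = c • app a

/-- The identity homomorphism. -/
def Hom.id (A : ThetaAlgebra k) : Hom A A :=
  ⟨fun a => a, fun _ _ => rfl, fun _ _ => rfl, fun _ _ => rfl⟩

/-- The composite `g ∘ f`. -/
def Hom.comp {A B C : ThetaAlgebra k} (g : Hom B C) (f : Hom A B) : Hom A C :=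
  ⟨fun a => g.app (f.app a), fun a b => by rw [f.app_add, g.app_add],
    fun a b => by rw [f.app_mul, g.app_mul], fun c a => by rw [f.app_smul, g.app_smul]⟩

variable (k)

/-- The ideal of the polynomial algebra `k[X]` consisting of the polynomials with zero constant
term. -/
noncomputable def augmentationIdeal (X : Finset ℕ) : Ideal (MvPolynomial X k) :=
  RingHom.ker (MvPolynomial.constantCoeff (R := k) (σ := X))

/-- The free algebra `F(X)` of `Θ` on a finite set `X ⊂ X₀ = ℕ`: the polynomials over `k` in the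
variables `X` with zero constant term (see `free_universal` for its universal property). -/
noncomputable def free (X : Finset ℕ) : ThetaAlgebra k where
  carrier := augmentationIdeal k X
  smul_mul c a b := by
    apply Subtype.ext
    exact smul_mul_assoc c (a : MvPolynomial X k) (b : MvPolynomial X k)

/-- The underlying set of `F(X)`. -/
abbrev FX (X : Finset ℕ) : Type := (free k X).carrier

/-- The morphisms `F(X) → F(Y)` of the category `Θ⁰` of all `F(X)` with `X ⊂ ℕ` finite: all
homomorphisms. The objects of `Θ⁰` are indexed by the finite subsets `X` of `ℕ`. -/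
abbrev Mor (X Y : Finset ℕ) : Type := Hom (free k X) (free k Y)

/-- An automorphism `Φ` of the category `Θ⁰`: a functor that is bijective on objects and on
morphisms. -/
structure Automorphism where
  /-- `F(X) ↦ Φ(F(X))` -/
  obj : Finset ℕ ≃ Finset ℕ
  /-- `μ ↦ Φ(μ)` -/
  map : ∀ X Y : Finset ℕ, Mor k X Y ≃ Mor k (obj X) (obj Y)
  map_id : ∀ X : Finset ℕ, map X X (Hom.id (free k X)) = Hom.id (free k (obj X))
  map_comp : ∀ (X Y Z : Finset ℕ) (f : Mor k X Y) (g : Mor k Y Z),
    map X Z (Hom.comp g f) = Hom.comp (map Y Z g) (map X Y f)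

variable {k}

/-- `T''_H`: the intersection of the kernels (as sets of pairs) of all homomorphisms
`ν : F(X) → H` whose kernel contains `T`. -/
def closure (H : ThetaAlgebra k) (X : Finset ℕ) (T : Set (FX k X × FX k X)) :
    Set (FX k X × FX k X) :=
  {p | ∀ ν : Hom (free k X) H, (∀ q ∈ T, ν.app q.1 = ν.app q.2) → ν.app p.1 = ν.app p.2}

/-- `Cl_H(F(X))`: the `H`-closed subsets `T = T''_H` of `F(X) × F(X)`. -/
def Cl (H : ThetaAlgebra k) (X : Finset ℕ) : Set (Set (FX k X × FX k X)) :=
  {T | T = closure H X T}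

/-- Geometric equivalence: `Cl_{H₁}(F(X)) = Cl_{H₂}(F(X))` for every object of `Θ⁰`. -/
def GeometricallyEquivalent (H₁ H₂ : ThetaAlgebra k) : Prop :=
  ∀ X : Finset ℕ, Cl H₁ X = Cl H₂ X

/-- The natural map `F(X) → F(X)/T` onto the quotient by `T`. -/
def natMap {X : Finset ℕ} (T : Set (FX k X × FX k X)) :
    FX k X → Quot (fun a b : FX k X => (a, b) ∈ T) :=
  Quot.mk _

/-- `τ μ₁ = τ μ₂` for the natural map `τ : F(Y) → F(Y)/T`. -/
def EqMod {X Y : Finset ℕ} (T : Set (FX k Y × FX k Y)) (μ₁ μ₂ : Mor k X Y) : Prop :=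
  natMap T ∘ μ₁.app = natMap T ∘ μ₂.app

/-- Automorphic equivalence of `H₁` and `H₂`: there are an automorphism `Φ` of `Θ⁰` and bijections
`α_{F(X)} : Cl_{H₁}(F(X)) → Cl_{H₂}(Φ(F(X)))` such that `τ μ₁ = τ μ₂` iff `τ' Φ(μ₁) = τ' Φ(μ₂)` for
all `μ₁, μ₂ : F(X₁) → F(X₂)` and all `T ∈ Cl_{H₁}(F(X₂))`, where `τ`, `τ'` are the natural
epimorphisms onto `F(X₂)/T` and `Φ(F(X₂))/α(T)`. -/
def AutomorphicallyEquivalent (H₁ H₂ : ThetaAlgebra k) : Prop :=
  ∃ (Φ : Automorphism k) (α : ∀ X : Finset ℕ, Cl H₁ X ≃ Cl H₂ (Φ.obj X)),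
    ∀ (X₁ X₂ : Finset ℕ) (μ₁ μ₂ : Mor k X₁ X₂) (T : Cl H₁ X₂),
      EqMod T.1 μ₁ μ₂ ↔ EqMod (α X₂ T).1 (Φ.map X₁ X₂ μ₁) (Φ.map X₁ X₂ μ₂)

end Definitions

section Sanity

theorem Hom.app_zero {k : Type} [Field k] {A B : ThetaAlgebra k} (f : Hom A B) :
    f.app 0 = 0 := by
  have := f.app_smul 0 0
  rwa [zero_smul, zero_smul] at this

theorem Hom.ext' {k : Type} [Field k] {A B : ThetaAlgebra k} {f g : Hom A B}
    (h : ∀ a, f.app a = g.app a) : f = g := by
  cases f; cases g
  congr
  exact funext h

variable (k : Type) [Field k]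

/-- The free generator `x_i` of `F(X)`. -/
noncomputable def gen (X : Finset ℕ) (i : X) : FX k X :=
  ⟨MvPolynomial.X i, by
    change MvPolynomial.constantCoeff _ = 0
    simp⟩

variable {k}

/-- The element of `F(X)` given by a polynomial with zero constant term. -/
def mk {X : Finset ℕ} (p : MvPolynomial X k) (hp : MvPolynomial.constantCoeff p = 0) :
    FX k X := ⟨p, hp⟩

/-- The polynomial underlying an element of `F(X)`. -/
def poly {X : Finset ℕ} (p : FX k X) : MvPolynomial X k := Subtype.val p

theorem poly_zeroCoeff {X : Finset ℕ} (p : FX k X) :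
    MvPolynomial.constantCoeff (poly p) = 0 := p.2

theorem ext_poly {X : Finset ℕ} {p q : FX k X} (h : poly p = poly q) : p = q :=
  Subtype.ext h

theorem poly_mk {X : Finset ℕ} (p : MvPolynomial X k) (hp) : poly (mk p hp) = p := rfl
theorem poly_add {X : Finset ℕ} (p q : FX k X) : poly (p + q) = poly p + poly q := rfl
theorem poly_mul {X : Finset ℕ} (p q : FX k X) : poly (p * q) = poly p * poly q := rfl
theorem poly_zero {X : Finset ℕ} : poly (0 : FX k X) = 0 := rfl
theorem poly_smul {X : Finset ℕ} (c : k) (p : FX k X) : poly (c • p) = c • poly p := rfl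
theorem poly_gen {X : Finset ℕ} (i : X) : poly (gen k X i) = MvPolynomial.X i := rfl

/-- Every element of `F(X)` is obtained from the generators by the operations. -/
theorem free_induction (X : Finset ℕ) (P : FX k X → Prop)
    (h0 : P 0) (hadd : ∀ a b, P a → P b → P (a + b)) (hmul : ∀ a b, P a → P b → P (a * b))
    (hsmul : ∀ (c : k) a, P a → P (c • a)) (hgen : ∀ i, P (gen k X i)) (p : FX k X) :
    P p := by
  classical
  -- monomials with nonzero exponent
  have hmono : ∀ (n : ℕ) (u : X →₀ ℕ) (c : k), (u.sum fun _ e => e) = n → u ≠ 0 →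
      ∃ a : FX k X, poly a = MvPolynomial.monomial u c ∧ P a := by
    intro n
    induction n with
    | zero =>
      intro u c hu hne
      exfalso
      apply hne
      ext i
      rw [Finsupp.sum, Finset.sum_eq_zero_iff] at hu
      by_cases hi : i ∈ u.support
      · exact hu i hi
      · simpa using hi
    | succ n ih =>
      intro u c hu hne
      obtain ⟨i, hi⟩ : ∃ i, u i ≠ 0 := by
        by_contra hcon
        push Not at hcon
        exact hne (Finsupp.ext hcon)
      have hdec : u = (u - Finsupp.single i 1) + Finsupp.single i 1 := by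
        rw [tsub_add_cancel_of_le]
        rw [Finsupp.single_le_iff]; omega
      by_cases hv : u - Finsupp.single i 1 = 0
      · refine ⟨c • gen k X i, ?_, hsmul _ _ (hgen i)⟩
        rw [poly_smul, poly_gen, hdec, hv, zero_add, MvPolynomial.smul_eq_C_mul, MvPolynomial.X,
            MvPolynomial.C_mul_monomial, mul_one]
      · have hsum : ((u - Finsupp.single i 1).sum fun _ e => e) = n := by
          have h1 : (u.sum fun _ e => e) = ((u - Finsupp.single i 1).sum fun _ e => e) + 1 := by
            conv_lhs => rw [hdec]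
            rw [Finsupp.sum_add_index' (fun _ => rfl) (fun _ _ _ => rfl),
              Finsupp.sum_single_index rfl]
          omega
        obtain ⟨a, ha, hP⟩ := ih (u - Finsupp.single i 1) c hsum hv
        refine ⟨a * gen k X i, ?_, hmul _ _ hP (hgen i)⟩
        rw [poly_mul, ha, poly_gen, MvPolynomial.X, MvPolynomial.monomial_mul, mul_one, ← hdec]
  have hq0 : MvPolynomial.coeff 0 (poly p) = 0 := poly_zeroCoeff p
  have hmem : ∀ s : Finset (X →₀ ℕ), s ⊆ (poly p).support →
      ∃ a : FX k X,
        poly a = ∑ u ∈ s, MvPolynomial.monomial u (MvPolynomial.coeff u (poly p)) ∧ P a := by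
    intro s
    induction s using Finset.induction_on with
    | empty =>
      intro _
      exact ⟨0, by simp [poly_zero], h0⟩
    | insert a s has ih =>
      intro hs
      obtain ⟨b, hb, hP⟩ := ih (fun x hx => hs (Finset.mem_insert_of_mem hx))
      have ha : a ∈ (poly p).support := hs (Finset.mem_insert_self _ _)
      have hane : a ≠ 0 := by
        rintro rfl
        exact (MvPolynomial.mem_support_iff.mp ha) hq0
      obtain ⟨b', hb', hP'⟩ := hmono _ a (MvPolynomial.coeff a (poly p)) rfl hane
      refine ⟨b' + b, ?_, hadd _ _ hP' hP⟩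
      rw [poly_add, hb, hb', Finset.sum_insert has]
  obtain ⟨a, ha, hP⟩ := hmem (poly p).support (Finset.Subset.refl _)
  have : p = a := by
    apply ext_poly
    rw [ha]
    exact (poly p).as_sum
  rw [this]
  exact hP

/-- The homomorphism `F(X) → H` with prescribed values on the generators, computed in the
unitization of `H`. -/
noncomputable def ev (X : Finset ℕ) (H : ThetaAlgebra k) (f : X → H.carrier)
    [IsScalarTower k H.carrier H.carrier] [SMulCommClass k H.carrier H.carrier] :
    MvPolynomial X k →ₐ[k] Unitization k H.carrier :=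
  MvPolynomial.aeval (fun i => (Unitization.inr (f i) : Unitization k H.carrier))

/-- Sanity check: `F(X)` has the universal property of the free algebra of `Θ` on `X`. -/
theorem free_universal (X : Finset ℕ) (H : ThetaAlgebra k) (f : X → H.carrier) :
    ∃! ν : Hom (free k X) H, ∀ i : X, ν.app (gen k X i) = f i := by
  classical
  have hst : IsScalarTower k H.carrier H.carrier := ⟨fun c a b => H.smul_mul c a b⟩
  have hsc : SMulCommClass k H.carrier H.carrier := ⟨fun c a b => by
    rw [smul_eq_mul, smul_eq_mul, mul_comm a (c • b), H.smul_mul, mul_comm]⟩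
  have hfst : ∀ p : MvPolynomial X k, (ev X H f p).fst = MvPolynomial.constantCoeff p := by
    intro p
    have h1 : (Unitization.fstHom k H.carrier).comp (ev X H f)
        = MvPolynomial.aeval (fun _ : X => (0 : k)) := by
      apply MvPolynomial.algHom_ext
      intro i
      simp [ev]
    have h2 := congrArg (fun g : MvPolynomial X k →ₐ[k] k => g p) h1
    simp only [AlgHom.comp_apply, Unitization.fstHom_apply] at h2
    rw [h2, MvPolynomial.aeval_zero']
    simp
  have hsnd : ∀ p : FX k X,
      ev X H f (poly p) = Unitization.inr (ev X H f (poly p)).snd := by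
    intro p
    apply Unitization.ext
    · rw [hfst, poly_zeroCoeff]; simp
    · simp
  refine ⟨⟨fun p => (ev X H f (poly p)).snd, ?_, ?_, ?_⟩, ?_, ?_⟩
  · intro p q
    rw [poly_add, map_add]; simp
  · intro p q
    rw [poly_mul, map_mul, hsnd p, hsnd q, ← Unitization.inr_mul]
    simp
  · intro c p
    rw [poly_smul, map_smul]; simp
  · intro i
    change (ev X H f (poly (gen k X i))).snd = f i
    rw [poly_gen]
    simp [ev]
  · intro ν' hν'
    apply Hom.ext'
    intro p
    refine free_induction X (fun p => ν'.app p = (ev X H f (poly p)).snd) ?_ ?_ ?_ ?_ ?_ p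
    · rw [ν'.app_zero, poly_zero, map_zero]; simp
    · intro a b ha hb
      rw [ν'.app_add, ha, hb, poly_add, map_add]; simp
    · intro a b ha hb
      rw [ν'.app_mul, ha, hb, poly_mul, map_mul, hsnd a, hsnd b, ← Unitization.inr_mul]; simp
    · intro c a ha
      rw [ν'.app_smul, ha, poly_smul, map_smul]; simp
    · intro i
      rw [hν' i, poly_gen]
      simp [ev]

end Sanity

section Basics

variable {k : Type} [Field k]

theorem closure_closure (H : ThetaAlgebra k) (X : Finset ℕ) (T : Set (FX k X × FX k X)) :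
    closure H X T = closure H X (closure H X T) := by
  ext p
  constructor
  · intro hp ν hν
    exact hν p hp
  · intro hp ν hν
    exact hp ν (fun q hq => hq ν hν)

theorem subset_closure (H : ThetaAlgebra k) (X : Finset ℕ) (T : Set (FX k X × FX k X)) :
    T ⊆ closure H X T :=
  fun p hp _ hν => hν p hp

/-- A closed set is an equivalence relation, so equality after the natural map is membership. -/
theorem natMap_eq_iff (H : ThetaAlgebra k) {X : Finset ℕ}
    {T : Set (FX k X × FX k X)} (hT : T ∈ Cl H X) (a b : FX k X) :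
    natMap T a = natMap T b ↔ (a, b) ∈ T := by
  have hequiv : Equivalence (fun a b : FX k X => (a, b) ∈ T) := by
    have hT' : T = closure H X T := hT
    refine ⟨?_, ?_, ?_⟩
    · intro x
      rw [hT']
      intro ν _
      rfl
    · intro x y hxy
      rw [hT'] at hxy ⊢
      intro ν hν
      exact (hxy ν hν).symm
    · intro x y z hxy hyz
      rw [hT'] at hxy hyz ⊢
      intro ν hν
      exact (hxy ν hν).trans (hyz ν hν)
  exact Quot.eq.trans hequiv.eqvGen_iff

/-- The `σ`-semilinear twist of the coefficients. -/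
noncomputable def tw (σ : k ≃+* k) {X : Finset ℕ} (p : FX k X) : FX k X :=
  mk (MvPolynomial.map (σ : k →+* k) (poly p)) (by
    rw [MvPolynomial.constantCoeff_map, poly_zeroCoeff, map_zero])

theorem poly_tw (σ : k ≃+* k) {X : Finset ℕ} (p : FX k X) :
    poly (tw σ p) = MvPolynomial.map (σ : k →+* k) (poly p) := rfl

theorem tw_add (σ : k ≃+* k) {X : Finset ℕ} (p q : FX k X) :
    tw σ (p + q) = tw σ p + tw σ q := by
  apply ext_poly; rw [poly_tw, poly_add, poly_add, poly_tw, poly_tw, map_add]

theorem tw_mul (σ : k ≃+* k) {X : Finset ℕ} (p q : FX k X) :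
    tw σ (p * q) = tw σ p * tw σ q := by
  apply ext_poly; rw [poly_tw, poly_mul, poly_mul, poly_tw, poly_tw, map_mul]

theorem tw_zero (σ : k ≃+* k) {X : Finset ℕ} :
    tw σ (0 : FX k X) = 0 := by
  apply ext_poly; rw [poly_tw, poly_zero, map_zero]

theorem tw_smul (σ : k ≃+* k) {X : Finset ℕ} (c : k) (p : FX k X) :
    tw σ (c • p) = σ c • tw σ p := by
  apply ext_poly
  rw [poly_tw, poly_smul, poly_smul, poly_tw, MvPolynomial.smul_eq_C_mul,
    MvPolynomial.smul_eq_C_mul, map_mul, MvPolynomial.map_C]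
  rfl

theorem tw_symm_tw (σ : k ≃+* k) {X : Finset ℕ} (p : FX k X) :
    tw σ.symm (tw σ p) = p := by
  apply ext_poly
  rw [poly_tw, poly_tw, MvPolynomial.map_map]
  have : ((σ.symm : k →+* k).comp (σ : k →+* k)) = RingHom.id k := by
    ext x; simp
  rw [this, MvPolynomial.map_id]

theorem tw_tw_symm (σ : k ≃+* k) {X : Finset ℕ} (p : FX k X) :
    tw σ (tw σ.symm p) = p := by
  have := tw_symm_tw σ.symm p
  simpa using this

/-- Transfer of homomorphisms along a semilinear isomorphism `θ`. -/
noncomputable def transfer {H₁ H₂ : ThetaAlgebra k} (σ : k ≃+* k)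
    (θ : H₁.carrier ≃+* H₂.carrier)
    (hθ : ∀ (c : k) (h : H₁.carrier), θ (c • h) = σ c • θ h)
    {X : Finset ℕ} (ν : Hom (free k X) H₁) : Hom (free k X) H₂ :=
  ⟨fun p => θ (ν.app (tw σ.symm p)),
    fun p q => by rw [tw_add, ν.app_add, map_add],
    fun p q => by rw [tw_mul, ν.app_mul, map_mul],
    fun c p => by rw [tw_smul, ν.app_smul, hθ]; simp⟩

/-- Conjugation of a homomorphism by the twists. -/
noncomputable def conj (σ : k ≃+* k) {X Y : Finset ℕ} (μ : Mor k X Y) : Mor k X Y :=
  ⟨fun p => tw σ (μ.app (tw σ.symm p)),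
    fun p q => by rw [tw_add, μ.app_add, tw_add],
    fun p q => by rw [tw_mul, μ.app_mul, tw_mul],
    fun c p => by rw [tw_smul, μ.app_smul, tw_smul]; simp⟩

theorem conj_app (σ : k ≃+* k) {X Y : Finset ℕ} (μ : Mor k X Y)
    (p : FX k X) : (conj σ μ).app p = tw σ (μ.app (tw σ.symm p)) := rfl

theorem conj_symm_conj (σ : k ≃+* k) {X Y : Finset ℕ}
    (μ : Mor k X Y) : conj σ.symm (conj σ μ) = μ := by
  apply Hom.ext'
  intro p
  rw [conj_app, conj_app, tw_symm_tw, RingEquiv.symm_symm, tw_symm_tw]

theorem conj_conj_symm (σ : k ≃+* k) {X Y : Finset ℕ}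
    (μ : Mor k X Y) : conj σ (conj σ.symm μ) = μ := by
  apply Hom.ext'
  intro p
  rw [conj_app, conj_app, tw_tw_symm, RingEquiv.symm_symm, tw_tw_symm]

/-- The automorphism of `Θ⁰` induced by an automorphism of the field `k`. -/
noncomputable def twAut (σ : k ≃+* k) : Automorphism k where
  obj := Equiv.refl _
  map X Y := ⟨conj σ, conj σ.symm, conj_symm_conj σ, conj_conj_symm σ⟩
  map_id X := by
    apply Hom.ext'
    intro p
    exact tw_tw_symm σ p
  map_comp X Y Z f g := by
    apply Hom.ext'
    intro p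
    change tw σ (g.app (f.app (tw σ.symm p))) = tw σ (g.app (tw σ.symm (tw σ (f.app (tw σ.symm p)))))
    rw [tw_symm_tw]

/-- The twist of a set of pairs. -/
def twSet (σ : k ≃+* k) {X : Finset ℕ} (T : Set (FX k X × FX k X)) :
    Set (FX k X × FX k X) :=
  {p | (tw σ.symm p.1, tw σ.symm p.2) ∈ T}

theorem twSet_twSet (σ : k ≃+* k) {X : Finset ℕ} (T : Set (FX k X × FX k X)) :
    twSet σ.symm (twSet σ T) = T := by
  ext p
  simp only [twSet, Set.mem_ofPred_eq, RingEquiv.symm_symm, tw_symm_tw, Prod.mk.eta]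

theorem twSet_twSet' (σ : k ≃+* k) {X : Finset ℕ} (T : Set (FX k X × FX k X)) :
    twSet σ (twSet σ.symm T) = T := by
  ext p
  simp only [twSet, Set.mem_ofPred_eq, RingEquiv.symm_symm, tw_tw_symm, Prod.mk.eta]

theorem twSet_closed {H₁ H₂ : ThetaAlgebra k} (σ : k ≃+* k) (θ : H₁.carrier ≃+* H₂.carrier)
    (hθ : ∀ (c : k) (h : H₁.carrier), θ (c • h) = σ c • θ h)
    {X : Finset ℕ} {T : Set (FX k X × FX k X)} (hT : T ∈ Cl H₁ X) :
    twSet σ T ∈ Cl H₂ X := by
  refine Set.Subset.antisymm (subset_closure H₂ X _) ?_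
  intro p hp
  change (tw σ.symm p.1, tw σ.symm p.2) ∈ T
  have hT' : T = closure H₁ X T := hT
  rw [hT']
  intro ν hν
  have h1 := hp (transfer σ θ hθ ν) (by
    intro q hq
    change θ (ν.app (tw σ.symm q.1)) = θ (ν.app (tw σ.symm q.2))
    rw [hν (tw σ.symm q.1, tw σ.symm q.2) hq])
  exact θ.injective h1

/-- Twisting the scalars by an automorphism of `k` gives an automorphically equivalent algebra. -/
theorem automorphicallyEquivalent_of_semilinear {H₁ H₂ : ThetaAlgebra k} (σ : k ≃+* k)
    (θ : H₁.carrier ≃+* H₂.carrier)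
    (hθ : ∀ (c : k) (h : H₁.carrier), θ (c • h) = σ c • θ h) :
    AutomorphicallyEquivalent H₁ H₂ := by
  have hθ' : ∀ (c : k) (h : H₂.carrier), θ.symm (c • h) = σ.symm c • θ.symm h := by
    intro c h
    apply θ.injective
    rw [hθ]; simp
  refine ⟨twAut σ, fun X => ⟨fun T => ⟨twSet σ T.1, twSet_closed σ θ hθ T.2⟩,
    fun T => ⟨twSet σ.symm T.1, twSet_closed σ.symm θ.symm hθ' T.2⟩, ?_, ?_⟩, ?_⟩
  · intro T
    exact Subtype.ext (twSet_twSet σ T.1)
  · intro T
    exact Subtype.ext (twSet_twSet' σ T.1)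
  · intro X₁ X₂ μ₁ μ₂ T
    have hT2 := twSet_closed σ θ hθ T.2
    change natMap T.1 ∘ μ₁.app = natMap T.1 ∘ μ₂.app ↔
      natMap (twSet σ T.1) ∘ (conj σ μ₁).app = natMap (twSet σ T.1) ∘ (conj σ μ₂).app
    constructor
    · intro h
      funext f
      change natMap (twSet σ T.1) (tw σ (μ₁.app (tw σ.symm f)))
        = natMap (twSet σ T.1) (tw σ (μ₂.app (tw σ.symm f)))
      rw [natMap_eq_iff H₂ hT2]
      change (tw σ.symm (tw σ _), tw σ.symm (tw σ _)) ∈ T.1
      rw [tw_symm_tw, tw_symm_tw, ← natMap_eq_iff H₁ T.2]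
      exact congrFun h (tw σ.symm f)
    · intro h
      funext f
      have h1 := congrFun h (tw σ f)
      change natMap (twSet σ T.1) (tw σ (μ₁.app (tw σ.symm (tw σ f))))
        = natMap (twSet σ T.1) (tw σ (μ₂.app (tw σ.symm (tw σ f)))) at h1
      rw [natMap_eq_iff H₂ hT2, tw_symm_tw] at h1
      change (tw σ.symm (tw σ _), tw σ.symm (tw σ _)) ∈ T.1 at h1
      rw [tw_symm_tw, tw_symm_tw] at h1
      exact (natMap_eq_iff H₁ T.2 _ _).mpr h1

end Basics

section Example

/-- The real numbers, seen as a `k`-algebra through an embedding `φ : k → ℝ`. -/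
noncomputable def realVia {k : Type} [Field k] (φ : k →+* ℝ) : ThetaAlgebra k :=
  letI : Module k ℝ := Module.compHom ℝ φ
  { carrier := ℝ
    smul_mul := fun c x y => by
      change (φ c * x) * y = φ c * (x * y)
      ring }

variable {k : Type} [Field k] (φ : k →+* ℝ)

/-- Evaluation of all variables at a real number `r`. -/
noncomputable def evalAt (X : Finset ℕ) (r : ℝ) : Hom (free k X) (realVia φ) :=
  ⟨fun p => (MvPolynomial.eval₂ φ (fun _ => r) (poly p) : ℝ),
    (fun p q => by
      rw [poly_add, MvPolynomial.eval₂_add]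
      rfl),
    (fun p q => by
      rw [poly_mul, MvPolynomial.eval₂_mul]
      rfl),
    (fun c p => by
      rw [poly_smul, MvPolynomial.smul_eq_C_mul, MvPolynomial.eval₂_mul, MvPolynomial.eval₂_C]
      rfl)⟩

/-- The variable of `F({0})`. -/
noncomputable def x0 (k : Type) [Field k] : FX k {0} :=
  gen k {0} ⟨0, Finset.mem_singleton_self 0⟩

theorem evalAt_x0 (r : ℝ) : (evalAt φ {0} r).app (x0 k) = (r : ℝ) := by
  change MvPolynomial.eval₂ φ (fun _ => r) (MvPolynomial.X _) = r
  rw [MvPolynomial.eval₂_X]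

/-- If some `a ∈ k` is positive for the embedding `φ` and negative for the embedding `ψ`, then the
two real algebras are not geometrically equivalent. -/
theorem not_geometricallyEquivalent (φ ψ : k →+* ℝ) (a : k) (ha : 0 < φ a) (ha' : ψ a < 0) :
    ¬ GeometricallyEquivalent (realVia φ) (realVia ψ) := by
  intro hgeo
  have h0 : Cl (realVia φ) {0} = Cl (realVia ψ) {0} := hgeo {0}
  set T0 : Set (FX k {0} × FX k {0}) := {(x0 k * x0 k * x0 k, a • x0 k)} with hT0
  set T1 := closure (realVia φ) {0} T0 with hT1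
  have h1 : T1 ∈ Cl (realVia φ) {0} := closure_closure (realVia φ) {0} T0
  rw [h0] at h1
  have h2 : T1 = closure (realVia ψ) {0} T1 := h1
  have h3 : (x0 k, (0 : FX k {0})) ∈ T1 := by
    rw [h2]
    intro ν hν
    have h4 := hν _ (subset_closure (realVia φ) {0} T0 rfl)
    rw [ν.app_mul, ν.app_mul, ν.app_smul] at h4
    change ν.app (x0 k) = ν.app 0
    rw [ν.app_zero]
    set y : ℝ := ν.app (x0 k) with hy
    have h4' : y * y * y = ψ a * y := h4
    change y = 0
    by_contra hne
    have h5 : y * y = ψ a := mul_right_cancel₀ hne h4'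
    have h6 : 0 ≤ y * y := mul_self_nonneg _
    linarith
  have h4 := h3 (evalAt φ {0} (Real.sqrt (φ a))) (by
    intro q hq
    rw [hT0, Set.mem_singleton_iff] at hq
    rw [hq]
    change (evalAt φ {0} (Real.sqrt (φ a))).app (x0 k * x0 k * x0 k)
      = (evalAt φ {0} (Real.sqrt (φ a))).app (a • x0 k)
    rw [Hom.app_mul, Hom.app_mul, Hom.app_smul, evalAt_x0]
    change (Real.sqrt (φ a) * Real.sqrt (φ a)) * Real.sqrt (φ a) = φ a * Real.sqrt (φ a)
    rw [Real.mul_self_sqrt ha.le])
  change (evalAt φ {0} (Real.sqrt (φ a))).app (x0 k) = (evalAt φ {0} (Real.sqrt (φ a))).app 0 at h4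
  rw [evalAt_x0, Hom.app_zero] at h4
  change Real.sqrt (φ a) = 0 at h4
  rw [Real.sqrt_eq_zero'] at h4
  linarith

/-- The field `ℚ(√2)`. -/
abbrev QSqrt2 : Type := QuadraticAlgebra ℚ 2 0

instance : Fact (∀ r : ℚ, r ^ 2 ≠ 2 + 0 * r) := ⟨by
  intro r hr
  rw [zero_mul, add_zero] at hr
  have h1 : Irrational (Real.sqrt 2) := irrational_sqrt_two
  apply h1
  rcases le_total 0 r with h | h
  · refine ⟨r, ?_⟩
    rw [eq_comm, Real.sqrt_eq_iff_mul_self_eq (by norm_num) (by exact_mod_cast h)]
    have : ((r ^ 2 : ℚ) : ℝ) = 2 := by rw [hr]; norm_num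
    push_cast at this
    nlinarith
  · refine ⟨-r, ?_⟩
    rw [eq_comm, Real.sqrt_eq_iff_mul_self_eq (by norm_num) (by exact_mod_cast neg_nonneg.mpr h)]
    have : ((r ^ 2 : ℚ) : ℝ) = 2 := by rw [hr]; norm_num
    push_cast at this ⊢
    nlinarith⟩

/-- The embedding `ℚ(√2) → ℝ` with `√2 ↦ √2`. -/
noncomputable def iota : QSqrt2 →+* ℝ :=
  ((QuadraticAlgebra.lift ⟨Real.sqrt 2, by
    rw [Real.mul_self_sqrt (by norm_num), zero_smul, add_zero]
    norm_num [Algebra.smul_def]⟩ : QSqrt2 →ₐ[ℚ] ℝ) : QSqrt2 →+* ℝ)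

theorem iota_omega : iota QuadraticAlgebra.omega = Real.sqrt 2 := by
  simp [iota]

/-- The automorphism `√2 ↦ -√2` of `ℚ(√2)`. -/
noncomputable def sig : QSqrt2 ≃+* QSqrt2 := starRingAut

theorem sig_sig (c : QSqrt2) : sig (sig c) = c := star_star c

theorem sig_omega : sig QuadraticAlgebra.omega = -QuadraticAlgebra.omega := by
  change star (QuadraticAlgebra.omega : QSqrt2) = _
  ext <;> simp

end Example

/-- Q1 is false: it is not true that, for every field `k` of characteristic `0`, any two
automorphically equivalent commutative associative `k`-algebras are geometrically equivalent. -/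
theorem result :
    ¬ ∀ (k : Type) [Field k] [CharZero k] (H₁ H₂ : ThetaAlgebra k),
      AutomorphicallyEquivalent H₁ H₂ → GeometricallyEquivalent H₁ H₂ := by
  intro h
  have h1 := h QSqrt2 (realVia iota) (realVia (iota.comp (sig : QSqrt2 →+* QSqrt2)))
  refine not_geometricallyEquivalent iota (iota.comp (sig : QSqrt2 →+* QSqrt2))
    QuadraticAlgebra.omega ?_ ?_ (h1 ?_)
  · rw [iota_omega]; positivity
  · change iota (sig QuadraticAlgebra.omega) < 0
    rw [sig_omega, map_neg, iota_omega]
    have : 0 < Real.sqrt 2 := by positivity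
    linarith
  · refine automorphicallyEquivalent_of_semilinear (H₁ := realVia iota)
      (H₂ := realVia (iota.comp (sig : QSqrt2 →+* QSqrt2))) sig (RingEquiv.refl ℝ) ?_
    intro c x
    change iota c * (show ℝ from x) = iota (sig (sig c)) * (show ℝ from x)
    rw [sig_sig]

end Pool.Agent.Results.MP_611bc7_al.Disproof
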